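import Pool.Agent.Q33.Conv.Main

set_option autoImplicit false

namespace Pool.Agent.Results.MP_cbedb1_nt.ConvDvd

open Finset

/-- For every `n ≥ 1`, `8 (2n-1) C(3n,n)` divides `∑_{j=0}^{n} a_j a_{n-j}` where `a_j = C(6j,3j) C(3j,j)`. -/
theorem result : ∀ n : ℕ, 1 ≤ n →
    8 * (2 * n - 1) * (3 * n).choose n ∣
      ∑ j ∈ range (n + 1), ((6 * j).choose (3 * j) * (3 * j).choose j) *
        ((6 * (n - j)).choose (3 * (n - j)) * (3 * (n - j)).choose (n - j)) := by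
  intro n hn
  have h8 : 8 * Pool.Agent.Q33.Conv.N n ∣ Pool.Agent.Q33.Conv.Sn n := by
    by_cases h : ∃ j, n = 2 ^ j
    · exact (Pool.Agent.Q33.Conv.dvd_pow_two n hn h).1
    · have := Pool.Agent.Q33.Conv.dvd_not_pow_two n hn h
      exact dvd_trans ⟨2, by ring⟩ this
  rw [mul_assoc]
  exact h8

end Pool.Agent.Results.MP_cbedb1_nt.ConvDvd
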